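import Pool.Agent.Helper53.KC.Goals

/-! Packet KC-CMP: complements and stable sets of the Johnson graph. -/

namespace Pool.Agent.Helper56.KC

open Finset Pool.Agent.Helper53.KC

variable {n : ℕ}

theorem adj_compl {X Y : Finset (Fin n)} (h : adj X Y) : adj Xᶜ Yᶜ := by
  obtain ⟨h1, h2⟩ := h
  unfold adj
  have h3 : Xᶜ ∩ Yᶜ = (X ∪ Y)ᶜ := by rw [compl_union]
  have h4 := card_union_add_card_inter X Y
  have h5 : (X ∪ Y).card ≤ n := by
    have := card_le_univ (X ∪ Y)
    rwa [Fintype.card_fin] at this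
  rw [h3, card_compl, card_compl, card_compl, Fintype.card_fin]
  constructor
  · rw [h1]
  · omega

theorem stb_image {S : Finset (Finset (Fin n))} (h : Stb S) : Stb (S.image compl) := by
  intro X hX Y hY hadj
  obtain ⟨X', hX', rfl⟩ := mem_image.1 hX
  obtain ⟨Y', hY', rfl⟩ := mem_image.1 hY
  have := adj_compl hadj
  rw [compl_compl, compl_compl] at this
  exact h X' hX' Y' hY' this

theorem image_image_compl (S : Finset (Finset (Fin n))) : (S.image compl).image compl = S := by
  rw [image_image]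
  ext X
  simp

theorem mem_V {r : ℕ} {X : Finset (Fin n)} : X ∈ V n r ↔ X.card = r := by
  unfold V
  rw [mem_powersetCard]
  simp

theorem compl_mem_V {r : ℕ} {X : Finset (Fin n)} (h : X ∈ V n r) : Xᶜ ∈ V n (n - r) := by
  rw [mem_V] at h ⊢
  rw [card_compl, Fintype.card_fin, h]

theorem istab_compl {r : ℕ} (hr : r ≤ n) (D D' : Finset (Finset (Fin n)))
    (hD : ∀ X ∈ V n r, (X ∈ D ↔ Xᶜ ∈ D')) : istab n r D = istab n (n - r) D' := by
  classical
  have hD' : ∀ X ∈ V n (n - r), (X ∈ D' ↔ Xᶜ ∈ D) := by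
    intro X hX
    have h1 := compl_mem_V hX
    rw [Nat.sub_sub_self hr] at h1
    have := hD Xᶜ h1
    rw [compl_compl] at this
    exact this.symm
  unfold istab
  refine card_nbij' (fun S => S.image compl) (fun S => S.image compl) ?_ ?_ ?_ ?_
  · intro S hS
    simp only [coe_filter, mem_powerset, Set.mem_ofPred_eq] at hS ⊢
    refine ⟨?_, stb_image hS.2⟩
    intro X hX
    obtain ⟨Y, hY, rfl⟩ := mem_image.1 hX
    have h1 := mem_sdiff.1 (hS.1 hY)
    exact mem_sdiff.2 ⟨compl_mem_V h1.1, fun h => h1.2 ((hD Y h1.1).2 h)⟩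
  · intro S hS
    simp only [coe_filter, mem_powerset, Set.mem_ofPred_eq] at hS ⊢
    refine ⟨?_, stb_image hS.2⟩
    intro X hX
    obtain ⟨Y, hY, rfl⟩ := mem_image.1 hX
    have h1 := mem_sdiff.1 (hS.1 hY)
    have h2 := compl_mem_V h1.1
    rw [Nat.sub_sub_self hr] at h2
    exact mem_sdiff.2 ⟨h2, fun h => h1.2 ((hD' Y h1.1).2 h)⟩
  · intro S _
    exact image_image_compl S
  · intro S _
    exact image_image_compl S

theorem cmp : CmpStmt := by
  intro n r C hr
  refine ⟨istab_compl hr _ _ ?_, istab_compl hr _ _ ?_⟩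
  · intro X hX
    unfold DD DC
    simp only [mem_filter]
    constructor
    · rintro ⟨_, h⟩
      refine ⟨compl_mem_V hX, ?_⟩
      intro x hx
      rw [mem_compl]
      exact fun h' => (disjoint_left.1 h) hx h'
    · rintro ⟨_, h⟩
      refine ⟨hX, disjoint_left.2 ?_⟩
      intro x hx h'
      exact (mem_compl.1 (h hx)) h'
  · intro X _
    simp

end Pool.Agent.Helper56.KC
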